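import Mathlib

namespace Pool.Agent.Results.MP_cfde94_co.Counter

/-- the label `|b u - b v|` of an edge -/
def edgeLabel {V : Type} (b : V → ℕ) : Sym2 V → ℕ :=
  Sym2.lift ⟨fun u v => Nat.dist (b u) (b v), fun _ _ => Nat.dist_comm _ _⟩

/-- graceful labelling -/
def Beta {V : Type} (G : SimpleGraph V) (b : V → ℕ) : Prop :=
  Function.Injective b ∧ (∀ v, b v ≤ G.edgeSet.ncard) ∧
    Set.BijOn (edgeLabel b) G.edgeSet (Set.Icc 1 G.edgeSet.ncard)

def NearAlpha {V : Type} (G : SimpleGraph V) (b : V → ℕ) : Prop :=
  Beta G b ∧ ∃ S : Set V, (∀ v ∈ S, ∀ u, G.Adj v u → b v < b u) ∧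
    ∀ v ∉ S, ∀ u, G.Adj v u → b u < b v

def el : List (Sym2 (Fin 10)) := [s(0, 6), s(0, 7), s(0, 8), s(0, 9), s(1, 5), s(1, 7), s(1, 8), s(1, 9), s(2, 5), s(2, 6), s(2, 8), s(2, 9), s(3, 5), s(3, 6), s(3, 7), s(3, 9), s(4, 5), s(4, 6), s(4, 7), s(4, 8)]

def H : SimpleGraph (Fin 10) where
  Adj a b := s(a, b) ∈ el
  symm := ⟨fun a b h => by rwa [Sym2.eq_swap]⟩
  loopless := ⟨by decide⟩

instance : DecidableRel H.Adj := fun a b => by unfold H; infer_instance

lemma edge_eq : H.edgeSet = el.toFinset := by
  ext e
  induction e using Sym2.ind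
  simp [H]

lemma card_eq : H.edgeSet.ncard = 20 := by
  rw [edge_eq, Set.ncard_coe_finset]; decide +kernel

theorem result : ∃ (V : Type) (_ : Fintype V) (G : SimpleGraph V), Nontrivial V ∧ G.Connected ∧
    G.Colorable 2 ∧ (∃ b, Beta G b) ∧ ¬ ∃ b, NearAlpha G b := by
  refine ⟨Fin 10, inferInstance, H, inferInstance, by decide +kernel, ⟨SimpleGraph.Coloring.mk
    (fun v => if v.val < 5 then 0 else 1) (by decide +kernel)⟩,
    ⟨![0, 1, 13, 6, 10, 18, 20, 19, 16, 2], by decide +kernel, ?_, ?_⟩, ?_⟩
  · rw [card_eq]; decide +kernel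
  · rw [card_eq, edge_eq, ← Finset.coe_Icc]
    refine ⟨fun e he => ?_, fun e he f hf => ?_, fun k hk => ?_⟩
    · revert e; simp only [Finset.mem_coe]; decide +kernel
    · revert e f; simp only [Finset.mem_coe]; decide +kernel
    · simp only [Set.mem_image, Finset.mem_coe] at hk ⊢
      revert k; decide +kernel
  · rintro ⟨b, ⟨-, -, h3⟩, S, h4, h5⟩
    rw [card_eq, edge_eq, ← Finset.coe_Icc] at h3
    have hsum : ∑ e ∈ el.toFinset, edgeLabel b e = ∑ k ∈ Finset.Icc 1 20, k :=
      Finset.sum_nbij (edgeLabel b) h3.1 h3.2.1 h3.2.2 (fun _ _ => rfl)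
    rw [List.sum_toFinset _ (by decide +kernel), show ∑ k ∈ Finset.Icc 1 20, k = 210 by decide]
      at hsum
    simp only [el, List.map_cons, List.map_nil, List.sum_cons, List.sum_nil, edgeLabel,
      Sym2.lift_mk] at hsum
    have o : ∀ v u, H.Adj v u → (v ∈ S ↔ u ∉ S) := by
      intro v u k
      constructor
      · intro hv hu
        have := h4 v hv u k; have := h4 u hu v k.symm; omega
      · intro hu
        by_contra hv
        have := h5 v hv u k; have := h5 u hu v k.symm; omega
    have o2 : ∀ v : Fin 10, v.val < 5 → (v ∈ S ↔ 0 ∈ S) := by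
      intro v hv
      obtain ⟨w, k1, k2⟩ := (show ∀ v : Fin 10, v.val < 5 → ∃ w, H.Adj v w ∧ H.Adj 0 w by
        decide +kernel) v hv
      exact (o v w k1).trans (o 0 w k2).symm
    by_cases h0 : (0 : Fin 10) ∈ S
    · have hd : ∀ v u : Fin 10, v.val < 5 → H.Adj v u → Nat.dist (b v) (b u) + b v = b u := by
        intro v u hv k
        have := h4 v ((o2 v hv).2 h0) u k
        unfold Nat.dist; omega
      have := hd 0 6 (by decide) (by decide)
      have := hd 0 7 (by decide) (by decide)
      have := hd 0 8 (by decide) (by decide)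
      have := hd 0 9 (by decide) (by decide)
      have := hd 1 5 (by decide) (by decide)
      have := hd 1 7 (by decide) (by decide)
      have := hd 1 8 (by decide) (by decide)
      have := hd 1 9 (by decide) (by decide)
      have := hd 2 5 (by decide) (by decide)
      have := hd 2 6 (by decide) (by decide)
      have := hd 2 8 (by decide) (by decide)
      have := hd 2 9 (by decide) (by decide)
      have := hd 3 5 (by decide) (by decide)
      have := hd 3 6 (by decide) (by decide)
      have := hd 3 7 (by decide) (by decide)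
      have := hd 3 9 (by decide) (by decide)
      have := hd 4 5 (by decide) (by decide)
      have := hd 4 6 (by decide) (by decide)
      have := hd 4 7 (by decide) (by decide)
      have := hd 4 8 (by decide) (by decide)
      omega
    · have hd : ∀ v u : Fin 10, v.val < 5 → H.Adj v u → Nat.dist (b v) (b u) + b u = b v := by
        intro v u hv k
        have := h5 v (fun h => h0 ((o2 v hv).1 h)) u k
        unfold Nat.dist; omega
      have := hd 0 6 (by decide) (by decide)
      have := hd 0 7 (by decide) (by decide)
      have := hd 0 8 (by decide) (by decide)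
      have := hd 0 9 (by decide) (by decide)
      have := hd 1 5 (by decide) (by decide)
      have := hd 1 7 (by decide) (by decide)
      have := hd 1 8 (by decide) (by decide)
      have := hd 1 9 (by decide) (by decide)
      have := hd 2 5 (by decide) (by decide)
      have := hd 2 6 (by decide) (by decide)
      have := hd 2 8 (by decide) (by decide)
      have := hd 2 9 (by decide) (by decide)
      have := hd 3 5 (by decide) (by decide)
      have := hd 3 6 (by decide) (by decide)
      have := hd 3 7 (by decide) (by decide)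
      have := hd 3 9 (by decide) (by decide)
      have := hd 4 5 (by decide) (by decide)
      have := hd 4 6 (by decide) (by decide)
      have := hd 4 7 (by decide) (by decide)
      have := hd 4 8 (by decide) (by decide)
      omega

end Pool.Agent.Results.MP_cfde94_co.Counter
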